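import Pool.Agent.Helper29.QP.Defs
import Pool.Agent.Helper47.QP.L3

/-!
# QP-T5: block count from the graph inequality (MP_55050e)
-/

open MonoidAlgebra Module

namespace Pool.Agent.Helper4.QP

open Pool.Agent.Helper29.QP

universe u

variable {K : Type u} [Field K] {X : Type}

/-- the statement of QP-L3 (`graph_rank`) -/
def GraphRankStmt (K : Type u) [Field K] : Prop :=
  ∀ {E Vt : Type} [Fintype E] [Fintype Vt] {M : Type u} [AddCommGroup M]
    [Module K M] (a : E → M) (e0 e1 : E → Vt) (_ : ∀ e, e0 e ≠ e1 e) (r : Vt → ℕ)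
    (_ : ∀ v, ∃ e, e0 e = v ∨ e1 e = v)
    (_ : ∀ v, finrank K (Submodule.span K (a '' {e | e0 e = v ∨ e1 e = v})) ≤ r v)
    (_ : ∀ v, ∀ S : Set E, S ⊆ {e | e0 e = v ∨ e1 e = v} → S.Nonempty →
      ({e | e0 e = v ∨ e1 e = v} \ S).Nonempty →
      2 * finrank K (Submodule.span K (a '' {e | e0 e = v ∨ e1 e = v})) + 1 ≤
        finrank K (Submodule.span K (a '' S)) +
        finrank K (Submodule.span K (a '' ({e | e0 e = v ∨ e1 e = v} \ S))) + r v)
    (_ : NoCut e0 e1),
    ∃ (Q : Type) (_ : Fintype Q) (cl : Vt → Q), Function.Surjective cl ∧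
      (∀ e, cl (e0 e) = cl (e1 e)) ∧
      2 * finrank K (Submodule.span K (Set.range a)) + Fintype.card Vt ≤
        ∑ v, r v + 2 * Fintype.card Q

/-- factorisation of a family of vectors through another one -/
theorem exists_factor {ι : Type} {U M : Type u} [AddCommGroup U] [Module K U] [AddCommGroup M]
    [Module K M] (nu : ι → U) (a : ι → M)
    (h : ∀ l : ι →₀ K, Finsupp.linearCombination K nu l = 0 → Finsupp.linearCombination K a l = 0) :
    ∃ T : U →ₗ[K] M, ∀ i, T (nu i) = a i := by
  set L1 := Finsupp.linearCombination K nu with hL1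
  set L2 := Finsupp.linearCombination K a with hL2
  have hk : LinearMap.ker L1 ≤ LinearMap.ker L2 := fun l hl => h l hl
  let T0 : LinearMap.range L1 →ₗ[K] M :=
    ((LinearMap.ker L1).liftQ L2 hk) ∘ₗ (L1.quotKerEquivRange.symm : _ →ₗ[K] _)
  obtain ⟨T, hT⟩ := LinearMap.exists_extend T0
  refine ⟨T, fun i => ?_⟩
  have h1 : L1 (Finsupp.single i 1) = nu i := by simp [hL1]
  have h2 : L2 (Finsupp.single i 1) = a i := by simp [hL2]
  have h3 : T (nu i) = T0 ⟨L1 (Finsupp.single i 1), LinearMap.mem_range_self _ _⟩ := by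
    rw [← hT]
    simp [h1]
  rw [h3, ← h2]
  have h4 : L1.quotKerEquivRange.symm ⟨L1 (Finsupp.single i 1), LinearMap.mem_range_self _ _⟩ =
      (LinearMap.ker L1).mkQ (Finsupp.single i 1) := by
    rw [LinearEquiv.symm_apply_eq]
    rfl
  change ((LinearMap.ker L1).liftQ L2 hk) (L1.quotKerEquivRange.symm _) = _
  rw [h4]
  simp

theorem finrank_map_add {U M : Type u} [AddCommGroup U] [Module K U] [FiniteDimensional K U]
    [AddCommGroup M] [Module K M] (T : U →ₗ[K] M) (R : Submodule K U) :
    finrank K (R.map T) + finrank K (LinearMap.ker T ⊓ R : Submodule K U) = finrank K R := by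
  have h := LinearMap.finrank_range_add_finrank_ker (T.domRestrict R)
  rw [LinearMap.range_domRestrict, LinearMap.ker_domRestrict] at h
  rw [← h]
  congr 1
  have h2 : (LinearMap.ker T ⊓ R : Submodule K U) = ((LinearMap.ker T).comap R.subtype).map
      R.subtype := by
    rw [Submodule.map_comap_subtype, inf_comm]
  rw [h2, Submodule.finrank_map_subtype_eq]

section
variable {P : Type} {U V : Type u} [AddCommGroup U] [Module K U] [AddCommGroup V] [Module K V]
  [Fintype P] [DecidableEq P] [FiniteDimensional K U] (D : CycData K X P U V)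

omit [Fintype P] [DecidableEq P] [FiniteDimensional K U] in
theorem rk_side {S : Set P} {x : X} (hx : ∀ p ∈ S, D.lt p = x) (b : Bool) :
    D.rk b S = D.rk true S := by
  cases b with
  | true => rfl
  | false =>
    have h : (fun p => D.nu (D.pos p false)) '' S =
        (D.eU x : U →ₗ[K] U) '' ((fun p => D.nu (D.pos p true)) '' S) := by
      rw [Set.image_image]
      apply Set.image_congr
      intro p hp
      have := D.hU p
      rw [hx p hp] at this
      simp only [CycData.pos]
      exact this.symm
    rw [CycData.rk, CycData.rk, h, ← Submodule.map_span]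
    exact LinearEquiv.finrank_map_eq (D.eU x) _

omit [Fintype P] [DecidableEq P] [FiniteDimensional K U] in
theorem dep_ne_arr {C : Type} {col : P → C} (href : ∀ p q, col p = col q → D.lt p = D.lt q)
    (p : P) : D.dep col p ≠ D.arr col p := by
  intro h
  simp only [CycData.dep, CycData.arr, Prod.mk.injEq] at h
  have h1 := D.red (D.nx.symm p)
  rw [Equiv.apply_symm_apply] at h1
  have h2 := h1 (href _ _ h.1.symm)
  rw [h2] at h
  have := h.2
  revert this
  cases D.sg p <;> simp

omit [Fintype P] [DecidableEq P] [FiniteDimensional K U] in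
/-- the edges at a vertex are the positions of the steps of the block -/
theorem star_eq {C : Type} (col : P → C) (c : C) (b : Bool) :
    {q | D.dep col q = (c, b) ∨ D.arr col q = (c, b)} =
      (fun p => D.pos p b) '' {p | col p = c} := by
  ext q
  simp only [Set.mem_ofPred_eq, Set.mem_image, CycData.dep, CycData.arr, Prod.mk.injEq, CycData.pos]
  constructor
  · rintro (⟨h1, h2⟩ | ⟨h1, h2⟩)
    · exact ⟨q, h1, by rw [if_pos h2]⟩
    · refine ⟨D.nx.symm q, h1, ?_⟩
      rw [if_neg, Equiv.apply_symm_apply]
      intro h3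
      rw [h3] at h2
      revert h2; cases b <;> simp
  · rintro ⟨p, hp, rfl⟩
    by_cases hb : D.sg p = b
    · left; rw [if_pos hb]; exact ⟨hp, hb⟩
    · right; rw [if_neg hb, Equiv.symm_apply_apply]
      refine ⟨hp, ?_⟩
      revert hb; cases D.sg p <;> cases b <;> simp

/-- evaluations on `LL` -/
noncomputable def ev {C : Type} (col : P → C) (p : P) : Module.Dual K (D.LL col) :=
  (LinearMap.proj p) ∘ₗ (D.LL col).subtype

omit [Fintype P] [DecidableEq P] [FiniteDimensional K U] in
theorem ev_apply {C : Type} (col : P → C) (p : P) (β : D.LL col) : ev D col p β = β.1 p := rfl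

theorem span_ev {C : Type} (col : P → C) : Submodule.span K (Set.range (ev D col)) = ⊤ := by
  rw [eq_top_iff]
  intro f _
  obtain ⟨g, hg⟩ := LinearMap.exists_extend f
  have : f = ∑ p, g (fun j => if p = j then 1 else 0) • ev D col p := by
    ext β
    rw [LinearMap.sum_apply, ← hg]
    simp only [LinearMap.comp_apply, Submodule.subtype_apply, LinearMap.smul_apply, ev_apply,
      smul_eq_mul]
    rw [LinearMap.pi_apply_eq_sum_univ g β.1]
    exact Finset.sum_congr rfl fun p _ => by rw [smul_eq_mul, mul_comm]
  rw [this]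
  exact Submodule.sum_mem _ fun p _ => Submodule.smul_mem _ _ (Submodule.subset_span ⟨p, rfl⟩)

theorem ev_factor {C : Type} (col : P → C) (c : C) (b : Bool) :
    ∃ T : U →ₗ[K] Module.Dual K (D.LL col), ∀ p, col p = c →
      T (D.nu (D.pos p b)) = ev D col (D.pos p b) := by
  obtain ⟨T, hT⟩ := exists_factor (K := K) (ι := {p // col p = c})
    (fun p => D.nu (D.pos p.1 b)) (fun p => ev D col (D.pos p.1 b)) (by
      intro l hl
      ext β
      obtain ⟨φ, hφ⟩ := β.2 c b
      have h1 := congrArg φ hl
      rw [map_zero, Finsupp.linearCombination_apply, map_finsuppSum] at h1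
      rw [Finsupp.linearCombination_apply, LinearMap.zero_apply, Finsupp.sum, LinearMap.sum_apply,
        ← h1, Finsupp.sum]
      refine Finset.sum_congr rfl fun p _ => ?_
      rw [LinearMap.smul_apply, ev_apply, hφ p.1 p.2, map_smul])
  exact ⟨T, fun p hp => hT ⟨p, hp⟩⟩

theorem good_count_of (graph_rank : GraphRankStmt K) (m : ℕ) {C : Type} [Fintype C] [DecidableEq C] (col : P → C)
    (hg : D.Good m col) (h1 : D.MC col) (h2 : NoCut (D.dep col) (D.arr col)) :
    ∃ (Q : Type) (_ : Fintype Q) (cl : C × Bool → Q), Function.Surjective cl ∧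
      (∀ p, cl (D.dep col p) = cl (D.arr col p)) ∧ 1 + Fintype.card C ≤ m + Fintype.card Q := by
  have hx : ∀ c : C, ∃ x, ∀ p ∈ {p | col p = c}, D.lt p = x := fun c => by
    obtain ⟨p0, hp0⟩ := hg.surj c
    exact ⟨D.lt p0, fun p hp => hg.ref _ _ (by rw [hp0]; exact hp)⟩
  obtain ⟨Q, iQ, cl, hcl, hadj, hcount⟩ := graph_rank (ev D col) (D.dep col) (D.arr col)
    (dep_ne_arr D hg.ref) (fun v => D.rk true {p | col p = v.1})
    (by
      rintro ⟨c, b⟩
      obtain ⟨p, hp⟩ := hg.surj c
      have : D.pos p b ∈ {q | D.dep col q = (c, b) ∨ D.arr col q = (c, b)} := by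
        rw [star_eq]; exact ⟨p, hp, rfl⟩
      exact ⟨_, this⟩)
    (by
      rintro ⟨c, b⟩
      obtain ⟨x, hx⟩ := hx c
      obtain ⟨T, hT⟩ := ev_factor D col c b
      rw [star_eq, Set.image_image, ← rk_side D hx b, CycData.rk]
      have : (fun p => ev D col (D.pos p b)) '' {p | col p = c} =
          T '' ((fun p => D.nu (D.pos p b)) '' {p | col p = c}) := by
        rw [Set.image_image]
        exact Set.image_congr fun p hp => (hT p hp).symm
      rw [this, ← Submodule.map_span]
      exact Submodule.finrank_map_le _ _)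
    (by
      rintro ⟨c, b⟩ S hS hne hne'
      obtain ⟨x, hx⟩ := hx c
      obtain ⟨T, hT⟩ := ev_factor D col c b
      rw [star_eq] at hS hne' ⊢
      set B : Set P := {p | col p = c} with hB
      set S' : Set P := {p | p ∈ B ∧ D.pos p b ∈ S} with hS'
      have hS'B : S' ⊆ B := fun p hp => hp.1
      have e1 : (fun p => D.pos p b) '' S' = S := by
        ext q
        constructor
        · rintro ⟨p, hp, rfl⟩; exact hp.2
        · intro hq
          obtain ⟨p, hp, rfl⟩ := hS hq
          exact ⟨p, ⟨hp, hq⟩, rfl⟩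
      have e2 : (fun p => D.pos p b) '' (B \ S') = (fun p => D.pos p b) '' B \ S := by
        ext q
        constructor
        · rintro ⟨p, hp, rfl⟩
          exact ⟨⟨p, hp.1, rfl⟩, fun hq => hp.2 ⟨hp.1, hq⟩⟩
        · rintro ⟨⟨p, hp, rfl⟩, hq⟩
          exact ⟨p, ⟨hp, fun h => hq h.2⟩, rfl⟩
      have hne1 : S'.Nonempty := by
        rw [← e1] at hne; exact hne.of_image
      have hne2 : (B \ S').Nonempty := by
        rw [← e2] at hne'; exact hne'.of_image
      have hMC := h1 c S' hS'B hne1 hne2
      rw [← hB, ← rk_side D hx b, ← rk_side D (fun p hp => hx p (hS'B hp)) b,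
        ← rk_side D (fun p hp => hx p hp.1) b] at hMC
      rw [← rk_side D hx b]
      -- the spans
      set N : Submodule K U := Submodule.span K ((fun p => D.nu (D.pos p b)) '' B) with hN
      set N1 : Submodule K U := Submodule.span K ((fun p => D.nu (D.pos p b)) '' S') with hN1
      set N2 : Submodule K U := Submodule.span K ((fun p => D.nu (D.pos p b)) '' (B \ S')) with hN2
      have hsup : N1 ⊔ N2 = N := by
        rw [hN1, hN2, hN, ← Submodule.span_union, ← Set.image_union, Set.union_sdiff_cancel hS'B]
      have im : ∀ R : Set P, R ⊆ B → Submodule.span K (ev D col '' ((fun p => D.pos p b) '' R)) =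
          (Submodule.span K ((fun p => D.nu (D.pos p b)) '' R)).map T := fun R hR => by
        rw [Submodule.map_span, Set.image_image, Set.image_image]
        congr 1
        exact Set.image_congr fun p hp => (hT p (hR hp)).symm
      have i0 := im B subset_rfl
      have i1 := im S' hS'B
      have i2 := im (B \ S') Set.sdiff_subset
      rw [e1] at i1
      rw [e2] at i2
      rw [i0, i1, i2, ← hN, ← hN1, ← hN2]
      have r0 : D.rk b B = finrank K N := rfl
      have r1 : D.rk b S' = finrank K N1 := rfl
      have r2 : D.rk b (B \ S') = finrank K N2 := rfl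
      rw [r0, r1, r2] at hMC
      rw [r0]
      have hB1 : finrank K (N.map T) ≤ finrank K (N1.map T) + finrank K (N2.map T) := by
        rw [← hsup, Submodule.map_sup]
        exact Submodule.finrank_add_le_finrank_add_finrank _ _
      by_cases hinj : LinearMap.ker T ⊓ N = ⊥
      · have fr : ∀ R : Submodule K U, R ≤ N → finrank K (R.map T) = finrank K R := fun R hR => by
          have h3 : LinearMap.ker T ⊓ R = ⊥ := by
            rw [eq_bot_iff, ← hinj]; exact inf_le_inf_left _ hR
          have h4 := finrank_map_add T R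
          rw [h3, finrank_bot] at h4
          omega
        rw [fr N le_rfl, fr N1 (hsup ▸ le_sup_left), fr N2 (hsup ▸ le_sup_right)]
        omega
      · have hlt : finrank K (N.map T) + 1 ≤ finrank K N := by
          have h4 := finrank_map_add T N
          have h5 : 0 < finrank K (LinearMap.ker T ⊓ N : Submodule K U) := by
            rw [Nat.pos_iff_ne_zero]
            intro h6
            exact hinj (Submodule.finrank_eq_zero.1 h6)
          omega
        omega)
    h2
  refine ⟨Q, iQ, cl, hcl, hadj, ?_⟩
  rw [span_ev, finrank_top, Subspace.dual_finrank_eq, Fintype.card_prod, Fintype.card_bool,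
    Fintype.sum_prod_type] at hcount
  simp only [Finset.sum_const, Finset.card_univ, Fintype.card_bool, smul_eq_mul] at hcount
  rw [← Finset.mul_sum] at hcount
  have := hg.inv
  omega

theorem good_count (m : ℕ) {C : Type} [Fintype C] [DecidableEq C] (col : P → C)
    (hg : D.Good m col) (h1 : D.MC col) (h2 : NoCut (D.dep col) (D.arr col)) :
    ∃ (Q : Type) (_ : Fintype Q) (cl : C × Bool → Q), Function.Surjective cl ∧
      (∀ p, cl (D.dep col p) = cl (D.arr col p)) ∧ 1 + Fintype.card C ≤ m + Fintype.card Q :=
  good_count_of D (fun a e0 e1 h0 r h1 h2 h3 h4 =>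
    Pool.Agent.Helper47.QPL3.graph_rank a e0 e1 h0 r h1 h2 h3 h4) m col hg h1 h2

end

end Pool.Agent.Helper4.QP
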